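import Mathlib
import Pool.Agent.Lib.MP_de9148_co.System

set_option autoImplicit false

namespace Pool.Agent.Results.MP_de9148_co.SharpLineHelly

/-- A box in `ℝ^d`: a product of `d` compact intervals `[a i, b i]` with `a i < b i`. -/
def IsBox {d : ℕ} (B : Set (Fin d → ℝ)) : Prop :=
  ∃ a b : Fin d → ℝ, (∀ i, a i < b i) ∧ B = {x | ∀ i, a i ≤ x i ∧ x i ≤ b i}

/-- The family `F` has a line transversal (property `T`): some affine line
`{p + t v : t ∈ ℝ}` with `v ≠ 0` meets every member of `F`. -/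
def HasLineTransversal {d : ℕ} (F : Set (Set (Fin d → ℝ))) : Prop :=
  ∃ p v : Fin d → ℝ, v ≠ 0 ∧ ∀ B ∈ F, ∃ t : ℝ, p + t • v ∈ B

/-- Property `T(m)`: every subfamily of at most `m` members has a line transversal. -/
def PropT {d : ℕ} (m : ℕ) (F : Set (Set (Fin d → ℝ))) : Prop :=
  ∀ G ⊆ F, G.Finite → G.ncard ≤ m → HasLineTransversal G

open Pool.Agent.Lib.MP_de9148_co

theorem exists_bound {ι : Type} [Finite ι] (f : ι → ℝ) : ∃ M : ℝ, ∀ x, f x < M := by
  obtain ⟨M, hM⟩ := (Set.finite_range f).bddAbove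
  exact ⟨M + 1, fun x => by
    have := hM (Set.mem_range_self x)
    linarith⟩

/-- lower corner -/
noncomputable def lo {n : ℕ} (a b : Idx n → ℝ) (M : ℝ) (k : Idx n) (l : Fin (n + 1)) : ℝ :=
  if l = arc k.2 then (if sgv k.1 l then a k else -M)
  else if l = arc k.2 + 1 then (if sgv k.1 l then -M else C l - b k) else -M

/-- upper corner -/
noncomputable def hi {n : ℕ} (a b : Idx n → ℝ) (M : ℝ) (k : Idx n) (l : Fin (n + 1)) : ℝ :=
  if l = arc k.2 then (if sgv k.1 l then M else C l - a k)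
  else if l = arc k.2 + 1 then (if sgv k.1 l then b k else M) else M

theorem add_one_ne {n : ℕ} (hn : 1 ≤ n) (i : Fin (n + 1)) : i + 1 ≠ i := by
  intro h
  have h1 : (1 : Fin (n + 1)) = 0 := by
    have := add_eq_left.mp h
    exact this
  have h2 := congrArg Fin.val h1
  rw [Fin.val_one'] at h2
  have h3 : 1 % (n + 1) = 1 := Nat.mod_eq_of_lt (by omega)
  rw [h3] at h2
  simp at h2

theorem mem_box {n : ℕ} (a b : Idx n → ℝ) (M : ℝ) (k : Idx n)
    (x : Fin (n + 1) → ℝ) (hx : ∀ l, |x l| ≤ M) (hQ : Q a b k x) :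
    ∀ l, lo a b M k l ≤ x l ∧ x l ≤ hi a b M k l := by
  intro l
  have h := abs_le.mp (hx l)
  obtain ⟨h1, h2⟩ := hQ
  unfold lo hi
  by_cases hl : l = arc k.2
  · rw [if_pos hl, if_pos hl]
    rw [← hl] at h1
    cases hs : sgv k.1 l
    · rw [hs] at h1
      simp only [R, Bool.false_eq_true, if_false] at h1 ⊢
      constructor <;> linarith
    · rw [hs] at h1
      simp only [R, if_true] at h1 ⊢
      constructor <;> linarith
  · rw [if_neg hl, if_neg hl]
    by_cases hl2 : l = arc k.2 + 1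
    · rw [if_pos hl2, if_pos hl2]
      rw [← hl2] at h2
      cases hs : sgv k.1 l
      · rw [hs] at h2
        simp only [R, Bool.false_eq_true, if_false] at h2 ⊢
        constructor <;> linarith
      · rw [hs] at h2
        simp only [R, if_true] at h2 ⊢
        constructor <;> linarith
    · rw [if_neg hl2, if_neg hl2]
      exact h

theorem of_mem_box {n : ℕ} (hn : 1 ≤ n) (a b : Idx n → ℝ) (M : ℝ) (k : Idx n)
    (x : Fin (n + 1) → ℝ) (hx : ∀ l, lo a b M k l ≤ x l ∧ x l ≤ hi a b M k l) :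
    Q a b k x := by
  constructor
  · have h := hx (arc k.2)
    unfold lo hi at h
    rw [if_pos rfl, if_pos rfl] at h
    cases hs : sgv k.1 (arc k.2)
    · rw [hs] at h
      simp only [R, Bool.false_eq_true, if_false] at h ⊢
      linarith
    · rw [hs] at h
      simp only [R, if_true] at h ⊢
      linarith
  · have h := hx (arc k.2 + 1)
    unfold lo hi at h
    rw [if_neg (add_one_ne hn _), if_pos rfl, if_neg (add_one_ne hn _), if_pos rfl] at h
    cases hs : sgv k.1 (arc k.2 + 1)
    · rw [hs] at h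
      simp only [R, Bool.false_eq_true, if_false] at h ⊢
      linarith
    · rw [hs] at h
      simp only [R, if_true] at h ⊢
      linarith

theorem lo_lt_hi {n : ℕ} (a b : Idx n → ℝ) (M : ℝ) (hM0 : 0 < M)
    (h1 : ∀ k, |a k| < M) (h2 : ∀ k, |b k| < M) (h3 : ∀ k (l : Fin (n + 1)), |C l - a k| < M)
    (h4 : ∀ k (l : Fin (n + 1)), |C l - b k| < M)
    (k : Idx n) (l : Fin (n + 1)) : lo a b M k l < hi a b M k l := by
  have g1 := abs_lt.mp (h1 k)
  have g2 := abs_lt.mp (h2 k)
  have g3 := abs_lt.mp (h3 k l)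
  have g4 := abs_lt.mp (h4 k l)
  unfold lo hi
  split_ifs <;> linarith

theorem main_succ (n : ℕ) (hn : 1 ≤ n) :
    ∃ F : Set (Set (Fin (n + 1) → ℝ)), (∀ B ∈ F, IsBox B) ∧ F.Finite ∧
      F.ncard = 2 ^ n * (2 * n + 1) ∧ PropT (2 ^ n * (2 * n + 1) - 1) F ∧
      ¬ HasLineTransversal F := by
  obtain ⟨a, b, p, v, hv, hmeet, hno⟩ := quad_system n hn
  choose! t ht using hmeet
  obtain ⟨M1, hM1⟩ := exists_bound
    (fun q : (Idx n × Idx n) × Fin (n + 1) => |(p q.1.1 + t q.1.1 q.1.2 • v q.1.1) q.2|)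
  obtain ⟨M2, hM2⟩ := exists_bound (fun k : Idx n => |a k|)
  obtain ⟨M3, hM3⟩ := exists_bound (fun k : Idx n => |b k|)
  obtain ⟨M4, hM4⟩ := exists_bound (fun q : Idx n × Fin (n + 1) => |C q.2 - a q.1|)
  obtain ⟨M5, hM5⟩ := exists_bound (fun q : Idx n × Fin (n + 1) => |C q.2 - b q.1|)
  let M : ℝ := max M1 (max M2 (max M3 (max M4 (max M5 1))))
  have m1 : M1 ≤ M := le_max_left _ _
  have m2 : M2 ≤ M := (le_max_left _ _).trans (le_max_right _ _)
  have m3 : M3 ≤ M := ((le_max_left _ _).trans (le_max_right _ _)).trans (le_max_right _ _)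
  have m4 : M4 ≤ M :=
    (((le_max_left _ _).trans (le_max_right _ _)).trans (le_max_right _ _)).trans
      (le_max_right _ _)
  have m5 : M5 ≤ M :=
    ((((le_max_left _ _).trans (le_max_right _ _)).trans (le_max_right _ _)).trans
      (le_max_right _ _)).trans (le_max_right _ _)
  have m6 : 1 ≤ M :=
    ((((le_max_right _ _).trans (le_max_right _ _)).trans (le_max_right _ _)).trans
      (le_max_right _ _)).trans (le_max_right _ _)
  let Bx : Idx n → Set (Fin (n + 1) → ℝ) :=
    fun k => {x | ∀ l, lo a b M k l ≤ x l ∧ x l ≤ hi a b M k l}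
  have hBx : ∀ k k', k ≠ k' → p k + t k k' • v k ∈ Bx k' := by
    intro k k' hne
    refine mem_box a b M k' _ ?_ (ht k k' hne)
    intro l
    exact (hM1 ((k, k'), l)).le.trans m1
  have hnoF : ¬ HasLineTransversal (Set.range Bx) := by
    rintro ⟨P, V, _, hPV⟩
    rcases le_total 0 (V 0) with h0 | h0
    · refine hno P V h0 ?_
      intro k
      obtain ⟨s, hs⟩ := hPV (Bx k) (Set.mem_range_self k)
      exact ⟨s, of_mem_box hn a b M k _ hs⟩
    · refine hno P (-V) (by simpa using h0) ?_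
      intro k
      obtain ⟨s, hs⟩ := hPV (Bx k) (Set.mem_range_self k)
      refine ⟨-s, ?_⟩
      have : P + (-s) • (-V) = P + s • V := by simp
      rw [this]
      exact of_mem_box hn a b M k _ hs
  have hinj : Function.Injective Bx := by
    intro k k' hkk
    by_contra hne
    apply hnoF
    refine ⟨p k, v k, hv k, ?_⟩
    rintro _ ⟨k'', rfl⟩
    by_cases h : k = k''
    · subst h
      rw [hkk]
      exact ⟨_, hBx k k' hne⟩
    · exact ⟨_, hBx k k'' h⟩
  have hcard : Fintype.card (Idx n) = 2 ^ n * (2 * n + 1) := by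
    simp only [Idx, Fintype.card_prod, Fintype.card_fun, Fintype.card_bool, Fintype.card_fin,
      Fintype.card_option]
    ring
  refine ⟨Set.range Bx, ?_, Set.finite_range Bx, ?_, ?_, hnoF⟩
  · rintro _ ⟨k, rfl⟩
    refine ⟨lo a b M k, hi a b M k, ?_, rfl⟩
    intro l
    exact lo_lt_hi a b M (by linarith) (fun k => (hM2 k).trans_le m2)
      (fun k => (hM3 k).trans_le m3) (fun k l => (hM4 (k, l)).trans_le m4)
      (fun k l => (hM5 (k, l)).trans_le m5) k l
  · rw [← Set.image_univ, Set.ncard_image_of_injective _ hinj, Set.ncard_univ,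
      Nat.card_eq_fintype_card, hcard]
  · intro G hG hfin hle
    -- some index is not used by `G`
    have hex : ∃ k, Bx k ∉ G := by
      by_contra hcon
      push Not at hcon
      have h1 : Set.range Bx ⊆ G := by
        rintro _ ⟨k, rfl⟩
        exact hcon k
      have h2 := Set.ncard_le_ncard h1 hfin
      rw [← Set.image_univ, Set.ncard_image_of_injective _ hinj, Set.ncard_univ,
        Nat.card_eq_fintype_card, hcard] at h2
      have h3 : 0 < 2 ^ n * (2 * n + 1) := by positivity
      omega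
    obtain ⟨k, hk⟩ := hex
    refine ⟨p k, v k, hv k, ?_⟩
    intro B hB
    obtain ⟨k', rfl⟩ := hG hB
    have hne : k ≠ k' := by
      rintro rfl
      exact hk hB
    exact ⟨_, hBx k k' hne⟩

/-- **Sharpness of Santalo's number for line transversals to boxes.** For every `d ≥ 2`
(in particular for every `d ≥ 3`) there is a family of exactly `2^(d-1) (2d-1)` boxes in `ℝ^d`
such that every `2^(d-1) (2d-1) - 1` members have a common line transversal, while the whole
family has none. -/
theorem result (d : ℕ) (hd : 2 ≤ d) :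
    ∃ F : Set (Set (Fin d → ℝ)), (∀ B ∈ F, IsBox B) ∧ F.Finite ∧
      F.ncard = 2 ^ (d - 1) * (2 * d - 1) ∧
      PropT (2 ^ (d - 1) * (2 * d - 1) - 1) F ∧ ¬ HasLineTransversal F := by
  obtain ⟨n, rfl⟩ : ∃ n, d = n + 1 := ⟨d - 1, by omega⟩
  have h := main_succ n (by omega)
  have e1 : n + 1 - 1 = n := by omega
  have e2 : 2 * (n + 1) - 1 = 2 * n + 1 := by omega
  rw [e1, e2]
  exact h

end Pool.Agent.Results.MP_de9148_co.SharpLineHelly
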